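import Pool.Agent.H83.Hi2

set_option autoImplicit false

namespace Pool.Agent.Results.MP_fe5ad6_lc.Yes

open Pool.Agent.H83.Hi

/-- An effectively closed (no oracle) HSID subset of the Hilbert cube. -/
theorem result : ∃ W : Set ℕ, REPred (· ∈ W) ∧ HSID (⋃ e ∈ W, Box e)ᶜ := main

end Pool.Agent.Results.MP_fe5ad6_lc.Yes
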